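import Mathlib

/-!
# A regular graph with two disjoint maximal cliques and without disjoint maximal independent sets

The graph has two complete subgraphs on `7 * 27 = 189` vertices each, whose vertices are divided into
seven classes of `27` vertices, the points of a Fano plane, and `49` further vertices, the pairs
`(a, a')` of lines. The vertex `(a, a')` is joined to the vertices of the first complete graph whose
point is not on the line `a` and to the vertices of the second one whose point is not on `a'`. The
graph is regular of degree `216 = 188 + 4 * 7 = 2 * 4 * 27`. A maximal independent set has at most one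
vertex in each of the complete graphs; for two of them let `a` be a line through the at most two
points used in the first complete graph, and `a'` a line through the ones used in the second. Then
`(a, a')` belongs to both sets.
-/

set_option autoImplicit false

namespace Pool.Agent.Results.MP_7a760c_co.DisjointCliques

/-- A clique in the sense of the problem: a maximal set of pairwise adjacent vertices. -/
def IsMaxClique {V : Type} (G : SimpleGraph V) (S : Set V) : Prop :=
  (∀ u ∈ S, ∀ v ∈ S, u ≠ v → G.Adj u v) ∧
    ∀ T : Set V, S ⊆ T → (∀ u ∈ T, ∀ v ∈ T, u ≠ v → G.Adj u v) → T = S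

/-- The graph has two cliques (maximal complete subgraphs) without a common vertex. -/
def HasDisjointCliques {V : Type} (G : SimpleGraph V) : Prop :=
  ∃ S T : Set V, IsMaxClique G S ∧ IsMaxClique G T ∧ Disjoint S T

/-- the point `p` of the Fano plane is not on the line `a = {a, a + 1, a + 3}` -/
def Off (p a : Fin 7) : Prop := p - a ≠ 0 ∧ p - a ≠ 1 ∧ p - a ≠ 3

instance (p a : Fin 7) : Decidable (Off p a) := by unfold Off; infer_instance

/-- the vertices -/
abbrev W : Type := (Bool × Fin 7 × Fin 27) ⊕ (Fin 7 × Fin 7)

/-- the line of the pair `l` used for the complete graph number `b` -/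
def sel (b : Bool) (l : Fin 7 × Fin 7) : Fin 7 := if b then l.1 else l.2

/-- adjacency -/
def adj : W → W → Prop
  | .inl x, .inl y => x.1 = y.1 ∧ x.2 ≠ y.2
  | .inl x, .inr l => Off x.2.1 (sel x.1 l)
  | .inr l, .inl x => Off x.2.1 (sel x.1 l)
  | .inr _, .inr _ => False

instance : DecidableRel adj := by
  intro u v
  rcases u with x | l <;> rcases v with y | m <;> unfold adj <;> infer_instance

/-- the graph -/
def GG : SimpleGraph W where
  Adj := adj
  symm := by
    constructor
    rintro (x | l) (y | m) h
    · exact ⟨h.1.symm, h.2.symm⟩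
    · exact h
    · exact h
    · exact h
  loopless := by
    constructor
    rintro (x | l) h
    · exact h.2 rfl
    · exact h

theorem card_off (b : Bool) (p : Fin 7) :
    (∑ l : Fin 7 × Fin 7, if Off p (sel b l) then 1 else 0) = 28 := by
  revert b p
  decide +kernel

theorem card_pts (a : Fin 7) : (∑ p : Fin 7, if Off p a then 1 else 0) = 4 := by
  revert a
  decide +kernel

theorem degree (v : W) : (GG.neighborSet v).ncard = 216 := by
  have h : GG.neighborSet v = ((Finset.univ.filter (fun u => adj v u) : Finset W) : Set W) := by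
    ext u
    simp [GG]
  rw [h, Set.ncard_coe_finset, Finset.card_filter, Fintype.sum_sum_type]
  rcases v with ⟨b, q⟩ | l
  · have h1 : (∑ x : Bool × Fin 7 × Fin 27,
        if adj (Sum.inl (b, q)) (Sum.inl x) then 1 else 0) = 188 := by
      rw [Fintype.sum_prod_type, Finset.sum_eq_single b]
      · have : (∑ y : Fin 7 × Fin 27, if adj (Sum.inl (b, q)) (Sum.inl (b, y)) then 1 else 0) =
            ((Finset.univ : Finset (Fin 7 × Fin 27)).filter (fun y => q ≠ y)).card := by
          rw [Finset.card_filter]
          refine Finset.sum_congr rfl fun y _ => ?_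
          simp [adj]
        rw [this, Finset.filter_ne, Finset.card_erase_of_mem (Finset.mem_univ _), Finset.card_univ]
        simp
      · intro b' _ hb
        refine Finset.sum_eq_zero fun y _ => ?_
        rw [if_neg]
        intro h2
        exact hb h2.1.symm
      · intro h2
        exact absurd (Finset.mem_univ _) h2
    have h2 : (∑ l : Fin 7 × Fin 7, if adj (Sum.inl (b, q)) (Sum.inr l) then 1 else 0) = 28 :=
      card_off b q.1
    rw [h1, h2]
  · have h1 : (∑ x : Bool × Fin 7 × Fin 27,
        if adj (Sum.inr l) (Sum.inl x) then 1 else 0) = 216 := by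
      rw [Fintype.sum_prod_type]
      have h3 : ∀ b : Bool, (∑ y : Fin 7 × Fin 27,
          if adj (Sum.inr l) (Sum.inl (b, y)) then 1 else 0) = 108 := by
        intro b
        rw [Fintype.sum_prod_type]
        have h4 : ∀ p : Fin 7, (∑ i : Fin 27, if adj (Sum.inr l) (Sum.inl (b, p, i)) then 1 else 0) =
            27 * (if Off p (sel b l) then 1 else 0) := by
          intro p
          have : ∀ i : Fin 27, (if adj (Sum.inr l) (Sum.inl (b, p, i)) then 1 else 0) =
              if Off p (sel b l) then 1 else 0 := fun i => rfl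
          simp only [this, Finset.sum_const, Finset.card_univ, Fintype.card_fin, smul_eq_mul]
        simp only [h4]
        rw [← Finset.mul_sum, card_pts]
        rfl
      simp only [h3]
      simp
    have h2 : (∑ m : Fin 7 × Fin 7, if adj (Sum.inr l) (Sum.inr m) then 1 else 0) = 0 := by
      refine Finset.sum_eq_zero fun y _ => ?_
      rw [if_neg]
      exact fun h => h
    rw [h1, h2]

/-- the vertices of the complete graph number `b` -/
def K (b : Bool) : Set W := {v | ∃ q, v = Sum.inl (b, q)}

theorem K_max (b : Bool) : IsMaxClique GG (K b) := by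
  refine ⟨?_, ?_⟩
  · rintro _ ⟨q, rfl⟩ _ ⟨q', rfl⟩ hne
    exact ⟨rfl, fun h => hne (by simp only at h; rw [h])⟩
  · intro T hT hc
    refine Set.Subset.antisymm ?_ hT
    intro v hv
    by_contra hn
    rcases v with ⟨b', q⟩ | l
    · have hb : b' ≠ b := fun h => hn ⟨q, by rw [h]⟩
      have h1 := hc _ hv _ (hT ⟨q, rfl⟩) (by intro h; simp only [Sum.inl.injEq, Prod.mk.injEq] at h; exact hb h.1)
      exact hb h1.1
    · have h1 := hc _ hv _ (hT ⟨(sel b l, 0), rfl⟩) (by simp)
      exact h1.1 (by simp)

theorem lines (p q : Fin 7) : ∃ a : Fin 7, ¬ Off p a ∧ ¬ Off q a := by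
  revert p q
  decide

/-- a maximal independent set has at most one vertex in each of the complete graphs, so there is a
point such that all its vertices in that complete graph belong to the class of this point -/
theorem point {S : Set W} (hS : ∀ u ∈ S, ∀ v ∈ S, u ≠ v → GGᶜ.Adj u v) (b : Bool) :
    ∃ p : Fin 7, ∀ q : Fin 7 × Fin 27, (Sum.inl (b, q) : W) ∈ S → q.1 = p := by
  by_cases h : ∃ q : Fin 7 × Fin 27, (Sum.inl (b, q) : W) ∈ S
  · obtain ⟨q, hq⟩ := h
    refine ⟨q.1, fun q' hq' => ?_⟩
    by_contra hne
    have hne' : q' ≠ q := fun h => hne (by rw [h])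
    have h1 := hS _ hq' _ hq (by intro h; simp only [Sum.inl.injEq, Prod.mk.injEq] at h; exact hne' h.2)
    rw [SimpleGraph.compl_adj] at h1
    exact h1.2 ⟨rfl, hne'⟩
  · push Not at h
    exact ⟨0, fun q hq => absurd hq (h q)⟩

theorem mem_of {S : Set W} (hS : IsMaxClique GGᶜ S) {l : Fin 7 × Fin 7}
    (hl : ∀ b : Bool, ∀ q : Fin 7 × Fin 27, (Sum.inl (b, q) : W) ∈ S → ¬ Off q.1 (sel b l)) :
    (Sum.inr l : W) ∈ S := by
  have h := hS.2 (insert (Sum.inr l) S) (Set.subset_insert _ _) ?_
  · rw [← h]
    exact Set.mem_insert _ _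
  · have key : ∀ v ∈ S, (Sum.inr l : W) ≠ v → GGᶜ.Adj (Sum.inr l) v := by
      intro v hv hne
      rw [SimpleGraph.compl_adj]
      refine ⟨hne, ?_⟩
      rcases v with ⟨b, q⟩ | m
      · exact hl b q hv
      · exact fun h => h
    rintro u (rfl | hu) v (rfl | hv) hne
    · exact absurd rfl hne
    · exact key v hv hne
    · exact (key u hu hne.symm).symm
    · exact hS.1 u hu v hv hne

theorem meet {S T : Set W} (hS : IsMaxClique GGᶜ S) (hT : IsMaxClique GGᶜ T) :
    ¬ Disjoint S T := by
  obtain ⟨p1, h1⟩ := point hS.1 true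
  obtain ⟨p2, h2⟩ := point hS.1 false
  obtain ⟨q1, h3⟩ := point hT.1 true
  obtain ⟨q2, h4⟩ := point hT.1 false
  obtain ⟨a, ha1, ha2⟩ := lines p1 q1
  obtain ⟨a', ha3, ha4⟩ := lines p2 q2
  rw [Set.not_disjoint_iff]
  refine ⟨Sum.inr (a, a'), mem_of hS ?_, mem_of hT ?_⟩
  · rintro (_ | _) q hq
    · rw [h2 q hq]
      exact ha3
    · rw [h1 q hq]
      exact ha1
  · rintro (_ | _) q hq
    · rw [h4 q hq]
      exact ha4
    · rw [h3 q hq]
      exact ha2

theorem reach (u : W) : GG.Reachable u (Sum.inl (true, 2, 0)) := by
  have h0 : ∀ q : Fin 7 × Fin 27, GG.Reachable (Sum.inl (true, q)) (Sum.inl (true, 2, 0)) := by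
    intro q
    by_cases h : q = (2, 0)
    · rw [h]
    · exact SimpleGraph.Adj.reachable (show GG.Adj _ _ from ⟨rfl, h⟩)
  have h1 : ∀ l : Fin 7 × Fin 7, GG.Reachable (Sum.inr l) (Sum.inl (true, 2, 0)) := by
    intro l
    have h : GG.Adj (Sum.inr l) (Sum.inl (true, l.1 + 2, 0)) := by
      change Off (l.1 + 2) (sel true l)
      have : ∀ a : Fin 7, Off (a + 2) a := by decide
      exact this l.1
    exact h.reachable.trans (h0 _)
  rcases u with ⟨b, q⟩ | l
  · cases b
    · have h : GG.Adj (Sum.inl (false, q)) (Sum.inr (0, q.1 - 2)) := by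
        change Off q.1 (sel false (0, q.1 - 2))
        have : ∀ a : Fin 7, Off a (a - 2) := by decide
        exact this q.1
      exact h.reachable.trans (h1 _)
    · exact h0 q
  · exact h1 l

/-- **Theorem.** There is a connected regular graph `G` (with `427` vertices, of degree `216`) which
has two disjoint cliques, while its complement does not have two disjoint cliques: any two maximal
independent sets of `G` have a common vertex. -/
theorem result : ∃ (V : Type) (_ : Fintype V) (G : SimpleGraph V),
    Fintype.card V = 427 ∧ G.Connected ∧ (∀ v : V, (G.neighborSet v).ncard = 216) ∧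
    HasDisjointCliques G ∧ ¬ HasDisjointCliques Gᶜ := by
  refine ⟨W, inferInstance, GG, ?_, ?_, degree, ⟨K true, K false, K_max _, K_max _, ?_⟩, ?_⟩
  · simp [W]
  · rw [SimpleGraph.connected_iff_exists_forall_reachable]
    exact ⟨_, fun u => (reach u).symm⟩
  · rw [Set.disjoint_left]
    rintro _ ⟨q, rfl⟩ ⟨q', h⟩
    simp at h
  · rintro ⟨S, T, hS, hT, hd⟩
    exact meet hS hT hd

end Pool.Agent.Results.MP_7a760c_co.DisjointCliques
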